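import Pool.Agent.N805.VP.Stm2
import Pool.Agent.N805.VP.Base

/-!
# VP/SMO (helper592): the Fredholm determinant of `[0, s)` is smooth in `s`

The section `had` (Hadamard's inequality) is a copy of the section of the same name in
`Pool.Agent.Y657.ND.Rdet` and `Pool.Agent.Y185.SR.Ereg`.
-/

set_option autoImplicit false

open MeasureTheory Set Filter Topology
open scoped Pointwise

namespace Pool.Agent.N592.VP

section had

open Finset Matrix
open scoped ComplexOrder BigOperators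

theorem det_zero_of_diag {α : Type*} [Fintype α] [DecidableEq α] (M : Matrix α α ℂ)
    (hM : M.PosSemidef) (i : α) (hi : M i i = 0) : M.det = 0 := by
  rw [← Matrix.exists_mulVec_eq_zero_iff]
  refine ⟨Pi.single i 1, ?_, ?_⟩
  · intro h
    have := congrFun h i
    simp at this
  · rw [← hM.dotProduct_mulVec_zero_iff]
    simp only [mulVec_single_one]
    have : star (Pi.single i (1 : ℂ) : α → ℂ) = Pi.single i (1 : ℂ) := by
      ext j
      by_cases h : j = i
      · subst h; simp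
      · simp [h]
    rw [this, single_one_dotProduct]
    exact hi

theorem det_le_diag (n : ℕ) : ∀ A : Matrix (Fin n) (Fin n) ℂ, A.PosSemidef →
    A.det ≤ ∏ i, A i i := by
  induction n with
  | zero => intro A _; simp
  | succ n ih =>
    intro A hA
    let e : Fin n ⊕ Fin 1 ≃ Fin (n + 1) := finSumFinEquiv
    have hM : (A.submatrix e e).PosSemidef := hA.submatrix _
    have hdet : A.det = (A.submatrix e e).det := (Matrix.det_submatrix_equiv_self e A).symm
    have hprod : ∏ i, A i i = ∏ i, (A.submatrix e e) i i :=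
      (Equiv.prod_comp e (fun i => A i i)).symm
    rw [hdet, hprod]
    generalize A.submatrix e e = M at hM
    have hd0 : ∀ i, 0 ≤ M i i := fun i => hM.diag_nonneg
    by_cases h0 : M (Sum.inr 0) (Sum.inr 0) = 0
    · rw [det_zero_of_diag M hM _ h0]
      exact Finset.prod_nonneg (fun i _ => hd0 i)
    · have hpos : 0 < M (Sum.inr 0) (Sum.inr 0) := lt_of_le_of_ne (hd0 _) (Ne.symm h0)
      have hM22 : M.toBlocks₂₂ = Matrix.of (fun _ _ => M (Sum.inr 0) (Sum.inr 0)) := by
        ext i j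
        fin_cases i
        fin_cases j
        rfl
      have hM22' : M.toBlocks₂₂ = Matrix.diagonal (fun _ => M (Sum.inr 0) (Sum.inr 0)) := by
        ext i j
        fin_cases i
        fin_cases j
        simp [toBlocks₂₂]
      have hpd : M.toBlocks₂₂.PosDef := by
        rw [hM22']
        exact Matrix.PosDef.diagonal (fun _ => hpos)
      have hinvt : IsUnit M.toBlocks₂₂ := hpd.isUnit
      let _ : Invertible M.toBlocks₂₂ := hinvt.invertible
      have hM21 : M.toBlocks₂₁ = M.toBlocks₁₂ᴴ := by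
        ext i j
        exact (hM.isHermitian.apply _ _).symm
      have hMb : M = fromBlocks M.toBlocks₁₁ M.toBlocks₁₂ M.toBlocks₁₂ᴴ M.toBlocks₂₂ := by
        rw [← hM21, fromBlocks_toBlocks]
      have hS : (M.toBlocks₁₁ - M.toBlocks₁₂ * (M.toBlocks₂₂)⁻¹ * M.toBlocks₁₂ᴴ).PosSemidef := by
        rw [← Matrix.PosDef.fromBlocks₂₂ _ _ hpd, ← hMb]
        exact hM
      have hE : (M.toBlocks₁₂ * (M.toBlocks₂₂)⁻¹ * M.toBlocks₁₂ᴴ).PosSemidef :=
        hpd.inv.posSemidef.mul_mul_conjTranspose_same _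
      have hdet2 : M.det = M (Sum.inr 0) (Sum.inr 0) *
          (M.toBlocks₁₁ - M.toBlocks₁₂ * (M.toBlocks₂₂)⁻¹ * M.toBlocks₁₂ᴴ).det := by
        have h1 := Matrix.det_fromBlocks₂₂ M.toBlocks₁₁ M.toBlocks₁₂ M.toBlocks₁₂ᴴ M.toBlocks₂₂
        rw [← hMb] at h1
        rw [h1, Matrix.invOf_eq_nonsing_inv]
        congr 1
        rw [hM22', det_diagonal]
        simp
      rw [hdet2, Fintype.prod_sum_type, mul_comm]
      simp only [Fin.prod_univ_one]
      apply mul_le_mul_of_nonneg_right _ (hd0 _)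
      refine le_trans (ih _ hS) ?_
      apply Finset.prod_le_prod
      · intro i _
        exact hS.diag_nonneg
      · intro i _
        rw [Matrix.sub_apply]
        exact sub_le_self _ hE.diag_nonneg


theorem hadamard {N : ℕ} (W : Matrix (Fin N) (Fin N) ℂ) :
    ‖W.det‖ ^ 2 ≤ ∏ i, ∑ j, ‖W i j‖ ^ 2 := by
  have hps : (W * Wᴴ).PosSemidef := Matrix.posSemidef_self_mul_conjTranspose W
  have h1 := det_le_diag N (W * Wᴴ) hps
  have h2 : (W * Wᴴ).det = ((‖W.det‖ ^ 2 : ℝ) : ℂ) := by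
    rw [Matrix.det_mul, Matrix.det_conjTranspose, RCLike.star_def, Complex.mul_conj,
      Complex.normSq_eq_norm_sq]
  have h3 : ∏ i, (W * Wᴴ) i i = ((∏ i, ∑ j, ‖W i j‖ ^ 2 : ℝ) : ℂ) := by
    rw [Complex.ofReal_prod]
    refine Finset.prod_congr rfl fun i _ => ?_
    rw [Matrix.mul_apply, Complex.ofReal_sum]
    refine Finset.sum_congr rfl fun j _ => ?_
    rw [Matrix.conjTranspose_apply, RCLike.star_def, Complex.mul_conj,
      Complex.normSq_eq_norm_sq]
  rw [h2, h3] at h1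
  exact_mod_cast h1

/-- the bound for one term -/
theorem term_bound (D : ℕ) (V : Matrix (Fin D) (Fin D) ℂ) (b : Fin D → ℝ) (hb : ∀ i, 0 ≤ b i)
    (h : ∀ i k, ‖V i k‖ ≤ b i) : ‖V.det‖ ≤ Real.sqrt ((D : ℝ) ^ D) * ∏ i, b i := by
  have h1 := hadamard V
  have h2 : ∏ i, ∑ j, ‖V i j‖ ^ 2 ≤ ∏ i : Fin D, ((D : ℝ) * b i ^ 2) := by
    refine Finset.prod_le_prod (fun i _ => Finset.sum_nonneg fun j _ => by positivity)
      fun i _ => ?_
    calc ∑ j, ‖V i j‖ ^ 2 ≤ ∑ _j : Fin D, b i ^ 2 :=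
          Finset.sum_le_sum fun j _ => pow_le_pow_left₀ (norm_nonneg _) (h i j) 2
      _ = (D : ℝ) * b i ^ 2 := by
          rw [Finset.sum_const, Finset.card_univ, Fintype.card_fin, nsmul_eq_mul]
  have h3 : ∏ i : Fin D, ((D : ℝ) * b i ^ 2) = (D : ℝ) ^ D * (∏ i, b i) ^ 2 := by
    rw [Finset.prod_mul_distrib, Finset.prod_const, Finset.card_univ, Fintype.card_fin,
      Finset.prod_pow]
  have h4 : ‖V.det‖ ^ 2 ≤ (Real.sqrt ((D : ℝ) ^ D) * ∏ i, b i) ^ 2 := by
    rw [mul_pow, Real.sq_sqrt (by positivity), ← h3]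
    exact h1.trans h2
  exact (pow_le_pow_iff_left₀ (norm_nonneg _) (mul_nonneg (Real.sqrt_nonneg _) (Finset.prod_nonneg fun i _ => hb i)) two_ne_zero).1 h4

end had

open Pool.Agent.N805.VP

/-! ## The complex kernel -/

/-- the entire function `sin (π w) / (π w)` -/
noncomputable def Sc (w : ℂ) : ℂ := dslope Complex.sin 0 ((Real.pi : ℂ) * w)

lemma Sc_diff : Differentiable ℂ Sc := by
  have h1 : Differentiable ℂ (dslope Complex.sin 0) := by
    rw [← differentiableOn_univ]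
    exact (Complex.differentiableOn_dslope univ_mem).2 Complex.differentiable_sin.differentiableOn
  unfold Sc
  exact h1.comp (differentiable_id.const_mul _)

lemma Sc_real (x : ℝ) : Sc (x : ℂ) = ((Real.sinc (Real.pi * x) : ℝ) : ℂ) := by
  unfold Sc
  rw [← Complex.ofReal_mul]
  by_cases h : Real.pi * x = 0
  · rw [h, Complex.ofReal_zero, dslope_same, Real.sinc_zero, Complex.deriv_sin]
    simp
  · have h' : ((Real.pi * x : ℝ) : ℂ) ≠ 0 := by exact_mod_cast h
    rw [dslope_of_ne _ h', slope_def_field, Real.sinc_of_ne_zero h, Complex.sin_zero, sub_zero,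
      sub_zero]
    push_cast
    rfl

/-- the complex determinant -/
noncomputable def Dc (k : ℕ) (z : ℂ) (u : Fin k → ℝ) : ℂ :=
  Matrix.det (Matrix.of fun i j : Fin k => Sc (z * ((u i - u j : ℝ) : ℂ)))

lemma Dc_real (k : ℕ) (s : ℝ) (u : Fin k → ℝ) : Dc k (s : ℂ) u = ((D (s • u) : ℝ) : ℂ) := by
  unfold Dc D
  have h1 : ((Matrix.det (Matrix.of fun i j : Fin k =>
      Real.sinc (Real.pi * ((s • u) i - (s • u) j))) : ℝ) : ℂ) =
      Complex.ofRealHom (Matrix.det (Matrix.of fun i j : Fin k =>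
      Real.sinc (Real.pi * ((s • u) i - (s • u) j)))) := rfl
  rw [h1, RingHom.map_det]
  congr 1
  ext i j
  simp only [Matrix.of_apply, RingHom.mapMatrix_apply, Matrix.map_apply]
  rw [← Complex.ofReal_mul, Sc_real]
  show _ = ((Real.sinc (Real.pi * ((s • u) i - (s • u) j)) : ℝ) : ℂ)
  rw [Pi.smul_apply, Pi.smul_apply, smul_eq_mul, smul_eq_mul, mul_sub s]

lemma Dc_diff (k : ℕ) (u : Fin k → ℝ) : Differentiable ℂ fun z => Dc k z u := by
  unfold Dc
  simp_rw [Matrix.det_apply]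
  refine Differentiable.fun_sum fun σ _ => ?_
  refine Differentiable.const_smul ?_ _
  refine Differentiable.fun_finsetProd fun i _ => ?_
  simp only [Matrix.of_apply]
  exact Sc_diff.comp (differentiable_id.mul_const _)

lemma Dc_cont (k : ℕ) : Continuous fun p : ℂ × (Fin k → ℝ) => Dc k p.1 p.2 := by
  unfold Dc
  refine Continuous.matrix_det ?_
  refine continuous_matrix fun i j => ?_
  simp only [Matrix.of_apply]
  refine Sc_diff.continuous.comp ?_
  exact continuous_fst.mul (Complex.continuous_ofReal.comp (by fun_prop))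

/-- the unit cube -/
def Q (k : ℕ) : Set (Fin k → ℝ) := Set.pi univ fun _ => Ico (0 : ℝ) 1

lemma Q_meas (k : ℕ) : MeasurableSet (Q k) := MeasurableSet.univ_pi fun _ => measurableSet_Ico

lemma Q_vol (k : ℕ) : volume (Q k) = 1 := by
  unfold Q
  rw [volume_pi_pi]
  simp

lemma Sc_bound (R : ℝ) : ∃ M : ℝ, 1 ≤ M ∧ ∀ w : ℂ, ‖w‖ ≤ R → ‖Sc w‖ ≤ M := by
  obtain ⟨M, hM⟩ := (isCompact_closedBall (0 : ℂ) R).exists_bound_of_continuousOn
    Sc_diff.continuous.continuousOn
  refine ⟨max M 1, le_max_right _ _, fun w hw => ?_⟩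
  exact (hM w (by rw [mem_closedBall_zero_iff]; exact hw)).trans (le_max_left _ _)

lemma Dc_bound {R M : ℝ} (hM : 1 ≤ M) (h : ∀ w : ℂ, ‖w‖ ≤ R → ‖Sc w‖ ≤ M) (k : ℕ) (z : ℂ)
    (hz : ‖z‖ ≤ R) (u : Fin k → ℝ) (hu : u ∈ Q k) :
    ‖Dc k z u‖ ≤ Real.sqrt ((k : ℝ) ^ k) * M ^ k := by
  have h1 := term_bound k (Matrix.of fun i j : Fin k => Sc (z * ((u i - u j : ℝ) : ℂ)))
    (fun _ => M) (fun _ => by linarith) (fun i j => by
      rw [Matrix.of_apply]
      apply h
      rw [norm_mul, Complex.norm_real, Real.norm_eq_abs]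
      have h2 : |u i - u j| ≤ 1 := by
        have h3 := hu i (mem_univ i)
        have h4 := hu j (mem_univ j)
        rw [abs_le]
        constructor <;> linarith [h3.1, h3.2, h4.1, h4.2]
      calc ‖z‖ * |u i - u j| ≤ ‖z‖ * 1 := mul_le_mul_of_nonneg_left h2 (norm_nonneg _)
        _ ≤ R := by rw [mul_one]; exact hz)
  rw [Finset.prod_const, Finset.card_univ, Fintype.card_fin] at h1
  exact h1

/-- the terms -/
noncomputable def Fk (k : ℕ) (z : ℂ) : ℂ := ∫ u in Q k, Dc k z u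

lemma Fk_bound {R M : ℝ} (hM : 1 ≤ M) (h : ∀ w : ℂ, ‖w‖ ≤ R → ‖Sc w‖ ≤ M) (k : ℕ) (z : ℂ)
    (hz : ‖z‖ ≤ R) : ‖Fk k z‖ ≤ Real.sqrt ((k : ℝ) ^ k) * M ^ k := by
  have h1 := norm_setIntegral_le_of_norm_le_const (μ := volume) (s := Q k)
    (f := fun u => Dc k z u) (C := Real.sqrt ((k : ℝ) ^ k) * M ^ k)
    (by rw [Q_vol]; exact ENNReal.one_lt_top) (fun u hu => Dc_bound hM h k z hz u hu)
  rw [measureReal_def, Q_vol, ENNReal.toReal_one, mul_one] at h1
  exact h1

lemma Fk_diff (k : ℕ) : Differentiable ℂ (Fk k) := by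
  intro z0
  obtain ⟨M, hM1, hM⟩ := Sc_bound (‖z0‖ + 2)
  have hfin : IsFiniteMeasure (volume.restrict (Q k)) := by
    constructor
    rw [Measure.restrict_apply_univ, Q_vol]
    exact ENNReal.one_lt_top
  have hb : ∀ᵐ u ∂(volume.restrict (Q k)), u ∈ Q k := ae_restrict_mem (Q_meas k)
  have key := hasDerivAt_integral_of_dominated_loc_of_deriv_le (μ := volume.restrict (Q k))
    (F := fun z u => Dc k z u) (F' := fun z u => deriv (fun w => Dc k w u) z) (x₀ := z0)
    (s := Metric.ball z0 1) (bound := fun _ => Real.sqrt ((k : ℝ) ^ k) * M ^ k)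
    (Metric.ball_mem_nhds z0 one_pos)
    (Eventually.of_forall fun z =>
      ((Dc_cont k).comp (by fun_prop : Continuous fun u : Fin k → ℝ =>
        ((z, u) : ℂ × (Fin k → ℝ)))).aestronglyMeasurable)
    (by
      refine Measure.integrableOn_of_bounded (M := Real.sqrt ((k : ℝ) ^ k) * M ^ k)
        (by rw [Q_vol]; exact ENNReal.one_ne_top) ?_ ?_
      · exact ((Dc_cont k).comp (by fun_prop : Continuous fun u : Fin k → ℝ =>
          ((z0, u) : ℂ × (Fin k → ℝ)))).aestronglyMeasurable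
      · filter_upwards [hb] with u hu
        exact Dc_bound hM1 hM k z0 (by linarith) u hu)
    (by
      have h1 : Measurable fun p : (Fin k → ℝ) × ℂ => deriv (fun w => Dc k w p.1) p.2 :=
        measurable_deriv_with_param (f := fun (u : Fin k → ℝ) (w : ℂ) => Dc k w u)
          ((Dc_cont k).comp continuous_swap)
      exact (h1.comp (by fun_prop : Measurable fun u : Fin k → ℝ =>
        ((u, z0) : (Fin k → ℝ) × ℂ))).aestronglyMeasurable)
    (by
      filter_upwards [hb] with u hu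
      intro z hz
      have h1 := Complex.norm_deriv_le_of_forall_mem_sphere_norm_le (c := z) (R := 1)
        (C := Real.sqrt ((k : ℝ) ^ k) * M ^ k) (f := fun w => Dc k w u) one_pos
        (Dc_diff k u).diffContOnCl (fun w hw => by
          refine Dc_bound hM1 hM k w ?_ u hu
          rw [mem_sphere_iff_norm] at hw
          rw [mem_ball_iff_norm] at hz
          have h2 : w = (w - z) + (z - z0) + z0 := by ring
          calc ‖w‖ = ‖(w - z) + (z - z0) + z0‖ := by rw [← h2]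
            _ ≤ ‖w - z‖ + ‖z - z0‖ + ‖z0‖ := norm_add₃_le
            _ ≤ _ := by linarith)
      rw [div_one] at h1
      exact h1)
    (integrable_const _)
    (Eventually.of_forall fun u z _ => ((Dc_diff k u) z).hasDerivAt)
  exact key.2.differentiableAt

lemma summ (R M : ℝ) (hR : 0 ≤ R) (hM : 1 ≤ M) :
    Summable fun k : ℕ => R ^ k / (k.factorial : ℝ) * (Real.sqrt ((k : ℝ) ^ k) * M ^ k) := by
  have h1 : Summable fun k : ℕ =>
      (2 * (R * M) ^ 2 * Real.exp 1) ^ k / (k.factorial : ℝ) + (1 / 2 : ℝ) ^ k :=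
    (Real.summable_pow_div_factorial _).add summable_geometric_two
  refine Summable.of_nonneg_of_le (fun k => by positivity) (fun k => ?_) h1
  obtain ⟨T, hT⟩ : ∃ T, T = R ^ k / (k.factorial : ℝ) * (Real.sqrt ((k : ℝ) ^ k) * M ^ k) :=
    ⟨_, rfl⟩
  rw [← hT]
  have hT0 : 0 ≤ T := by rw [hT]; positivity
  have hf : (0 : ℝ) < (k.factorial : ℝ) := by exact_mod_cast k.factorial_pos
  have hT2 : T ^ 2 ≤ ((R * M) ^ 2) ^ k / (k.factorial : ℝ) * Real.exp 1 ^ k := by
    have h2 : T ^ 2 = ((R * M) ^ 2) ^ k / (k.factorial : ℝ) *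
        ((k : ℝ) ^ k / (k.factorial : ℝ)) := by
      rw [hT, mul_pow, mul_pow (Real.sqrt _), Real.sq_sqrt (by positivity), mul_pow R M, mul_pow]
      have e1 : (R ^ 2) ^ k = (R ^ k) ^ 2 := by rw [← pow_mul, ← pow_mul, mul_comm]
      have e2 : (M ^ 2) ^ k = (M ^ k) ^ 2 := by rw [← pow_mul, ← pow_mul, mul_comm]
      rw [e1, e2]
      field_simp
    rw [h2]
    refine mul_le_mul_of_nonneg_left ?_ (by positivity)
    rw [Real.exp_one_pow]
    exact Real.pow_div_factorial_le_exp (k : ℝ) (Nat.cast_nonneg k) k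
  have h3 : (0 : ℝ) ≤ 2 ^ k * (T - (1 / 2) ^ k) ^ 2 := by positivity
  have h4 : (2 : ℝ) ^ k * (1 / 2) ^ k = 1 := by
    rw [← mul_pow]
    norm_num
  have h5 : (2 : ℝ) ^ k * (T - (1 / 2) ^ k) ^ 2 = 2 ^ k * T ^ 2 - 2 * T + (1 / 2) ^ k := by
    have h6 : (2 : ℝ) ^ k * (T - (1 / 2) ^ k) ^ 2 = 2 ^ k * T ^ 2 -
        2 * T * (2 ^ k * (1 / 2) ^ k) + (2 ^ k * (1 / 2) ^ k) * (1 / 2) ^ k := by ring
    rw [h6, h4]
    ring
  have h7 : (2 : ℝ) ^ k * T ^ 2 ≤ (2 * (R * M) ^ 2 * Real.exp 1) ^ k / (k.factorial : ℝ) := by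
    calc (2 : ℝ) ^ k * T ^ 2 ≤ 2 ^ k * (((R * M) ^ 2) ^ k / (k.factorial : ℝ) * Real.exp 1 ^ k) :=
          mul_le_mul_of_nonneg_left hT2 (by positivity)
      _ = _ := by
          rw [mul_pow, mul_pow]
          ring
  linarith

/-- the complex Fredholm determinant -/
noncomputable def EE (z : ℂ) : ℂ := ∑' k : ℕ, (-z) ^ k / (k.factorial : ℂ) * Fk k z

lemma EE_diff : Differentiable ℂ EE := by
  intro z0
  obtain ⟨M, hM1, hM⟩ := Sc_bound (‖z0‖ + 1)
  have hR : (0 : ℝ) ≤ ‖z0‖ + 1 := by positivity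
  have h1 := Complex.differentiableOn_tsum_of_summable_norm (summ (‖z0‖ + 1) M hR hM1)
    (F := fun (k : ℕ) (z : ℂ) => (-z) ^ k / (k.factorial : ℂ) * Fk k z)
    (U := Metric.ball 0 (‖z0‖ + 1))
    (fun k => (((differentiable_neg.pow k).div_const _).mul (Fk_diff k)).differentiableOn)
    Metric.isOpen_ball (fun k w hw => by
      rw [mem_ball_zero_iff] at hw
      rw [norm_mul, norm_div, norm_pow, norm_neg, Complex.norm_natCast]
      refine mul_le_mul ?_ (Fk_bound hM1 hM k w hw.le) (norm_nonneg _) (by positivity)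
      exact div_le_div_of_nonneg_right (pow_le_pow_left₀ (norm_nonneg _) hw.le k) (by positivity))
  exact h1.differentiableAt (Metric.isOpen_ball.mem_nhds (by
    rw [mem_ball_zero_iff]
    linarith))

/-! ## The real function -/

lemma Fk_real (k : ℕ) (s : ℝ) : Fk k (s : ℂ) = ((∫ u in Q k, D (s • u) : ℝ) : ℂ) := by
  unfold Fk
  simp_rw [Dc_real]
  exact integral_ofReal

lemma G_scale (k : ℕ) (s : ℝ) (hs : 0 ≤ s) :
    s ^ k * ∫ u in Q k, D (s • u) = G (fun _ : Fin k => Ico 0 s) := by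
  rcases Nat.eq_zero_or_pos k with rfl | hk
  · rw [G_zero, pow_zero, one_mul]
    simp_rw [D_zero]
    rw [setIntegral_const, measureReal_def, Q_vol]
    simp
  rcases hs.eq_or_lt with h | h
  · rw [← h, zero_pow (by omega), zero_mul]
    unfold G
    have h1 : Set.pi univ (fun _ : Fin k => Ico (0 : ℝ) 0) = ∅ := by
      rw [Set.eq_empty_iff_forall_notMem]
      intro q hq
      have h2 := hq ⟨0, hk⟩ (mem_univ _)
      simp at h2
    rw [h1, setIntegral_empty]
  · have h1 := Measure.setIntegral_comp_smul_of_pos (volume : Measure (Fin k → ℝ))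
      (fun q => D q) (Q k) h
    have h2 : s • Q k = Set.pi univ (fun _ : Fin k => Ico (0 : ℝ) s) := by
      ext q
      rw [Set.mem_smul_set_iff_inv_smul_mem₀ h.ne']
      unfold Q
      constructor
      · intro hq i hi
        have h3 := hq i hi
        rw [Pi.smul_apply, smul_eq_mul] at h3
        have h4 : q i = s * (s⁻¹ * q i) := by rw [mul_inv_cancel_left₀ h.ne']
        constructor
        · rw [h4]; exact mul_nonneg h.le h3.1
        · rw [h4]
          calc s * (s⁻¹ * q i) < s * 1 := mul_lt_mul_of_pos_left h3.2 h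
            _ = s := mul_one s
      · intro hq i hi
        have h3 := hq i hi
        rw [Pi.smul_apply, smul_eq_mul]
        constructor
        · exact mul_nonneg (by positivity) h3.1
        · rw [inv_mul_lt_iff₀ h, mul_one]
          exact h3.2
    rw [h2, Module.finrank_fin_fun] at h1
    rw [h1, smul_eq_mul, ← mul_assoc, mul_inv_cancel₀ (pow_ne_zero _ h.ne'), one_mul]
    rfl

lemma EE_real (s : ℝ) (hs : 0 ≤ s) : EE (s : ℂ) = ((E (Ico 0 s) : ℝ) : ℂ) := by
  unfold EE E Phi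
  rw [Complex.ofReal_tsum]
  refine tsum_congr fun k => ?_
  rw [← G_scale k s hs, Fk_real]
  push_cast
  rw [neg_pow (s : ℂ), neg_pow (1 : ℂ)]
  ring

lemma G_one (s : ℝ) (hs : 0 ≤ s) : G (fun _ : Fin 1 => Ico 0 s) = s := by
  unfold G
  simp_rw [D_one]
  rw [setIntegral_const, measureReal_def, volume_pi_pi]
  simp [hs]

lemma E_bound (hD : S_DET) (t : ℝ) (ht : 0 ≤ t) :
    |E (Ico 0 t) - 1 + t| ≤ t ^ 2 * Real.exp t := by
  have hb : ∃ b : ℝ, Ico 0 t ⊆ Icc (-b) b :=
    ⟨t, fun u hu => ⟨by linarith [hu.1], hu.2.le⟩⟩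
  have hsum := Phi_summable hD (z := 1) (W := Ico 0 t) measurableSet_Ico hb
  have h1 := hsum.sum_add_tsum_nat_add 2
  have h2 : E (Ico 0 t) - 1 + t = ∑' k : ℕ, (-1 : ℝ) ^ (k + 2) / ((k + 2).factorial : ℝ) *
      G (fun _ : Fin (k + 2) => Ico 0 t) := by
    have h3 : E (Ico 0 t) = ∑' k : ℕ, (-1 : ℝ) ^ k / (k.factorial : ℝ) *
      G (fun _ : Fin k => Ico 0 t) := rfl
    rw [h3, ← h1, Finset.sum_range_succ, Finset.sum_range_succ, Finset.sum_range_zero, G_zero,
      G_one t ht]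
    simp
    ring
  rw [h2, ← Real.norm_eq_abs]
  have h4 : HasSum (fun k : ℕ => t ^ 2 * (t ^ k / (k.factorial : ℝ))) (t ^ 2 * Real.exp t) := by
    refine HasSum.mul_left _ ?_
    have h5 := NormedSpace.expSeries_div_hasSum_exp (𝔸 := ℝ) t
    rw [← Real.exp_eq_exp_ℝ] at h5
    exact h5
  refine tsum_of_norm_bounded h4 fun k => ?_
  rw [norm_mul, norm_div, norm_pow, norm_neg, norm_one, one_pow, Real.norm_natCast,
    Real.norm_of_nonneg (G_nonneg hD fun _ => measurableSet_Ico)]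
  have h6 := G_const_le hD (k := k + 2) (W := Ico 0 t) measurableSet_Ico hb
  rw [Real.volume_real_Ico_of_le ht, sub_zero] at h6
  have h7 : (1 : ℝ) / ((k + 2).factorial : ℝ) ≤ 1 / (k.factorial : ℝ) := by
    apply one_div_le_one_div_of_le
    · exact_mod_cast k.factorial_pos
    · exact_mod_cast Nat.factorial_le (by omega)
  calc 1 / ((k + 2).factorial : ℝ) * G (fun _ : Fin (k + 2) => Ico 0 t)
      ≤ 1 / (k.factorial : ℝ) * t ^ (k + 2) :=
        mul_le_mul h7 h6 (G_nonneg hD fun _ => measurableSet_Ico) (by positivity)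
    _ = _ := by ring

theorem SMO : Pool.Agent.N805.VP.S_SMO := by
  intro hD
  have hc : ContDiff ℝ 2 fun s : ℝ => (EE (s : ℂ)).re := by
    have h1 : ContDiff ℂ 2 EE := EE_diff.contDiff
    exact Complex.reCLM.contDiff.comp ((h1.restrict_scalars ℝ).comp Complex.ofRealCLM.contDiff)
  have he : ∀ s : ℝ, 0 ≤ s → (EE (s : ℂ)).re = E (Ico 0 s) := by
    intro s hs
    rw [EE_real s hs, Complex.ofReal_re]
  refine ⟨fun s => (EE (s : ℂ)).re, hc, he, ?_⟩
  have hd : HasDerivAt (fun s : ℝ => (EE (s : ℂ)).re)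
      (deriv (fun s : ℝ => (EE (s : ℂ)).re) 0) 0 :=
    ((hc.differentiable (by norm_num)) 0).hasDerivAt
  have h1 := hd.tendsto_slope_zero_right
  have h2 : Tendsto (fun t : ℝ => t⁻¹ • ((EE ((0 + t : ℝ) : ℂ)).re - (EE ((0 : ℝ) : ℂ)).re))
      (𝓝[>] 0) (𝓝 (-1)) := by
    rw [tendsto_iff_norm_sub_tendsto_zero]
    have h3 : Tendsto (fun t : ℝ => t * Real.exp t) (𝓝[>] 0) (𝓝 0) := by
      have h4 : Continuous fun t : ℝ => t * Real.exp t := by fun_prop
      have h5 := (h4.tendsto 0).mono_left (nhdsWithin_le_nhds (s := Ioi (0 : ℝ)))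
      simpa using h5
    refine squeeze_zero' (Eventually.of_forall fun t => norm_nonneg _) ?_ h3
    filter_upwards [self_mem_nhdsWithin] with t ht
    have ht' : (0 : ℝ) < t := ht
    have h6 : E (Ico 0 (0 : ℝ)) = 1 := by
      have h7 := E_bound hD 0 le_rfl
      rw [zero_pow (by norm_num), zero_mul, add_zero] at h7
      have h8 := abs_nonpos_iff.1 h7
      linarith
    have h9 := E_bound hD t ht'.le
    rw [zero_add, he t ht'.le, he 0 le_rfl, h6, Real.norm_eq_abs, smul_eq_mul]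
    have h10 : t⁻¹ * (E (Ico 0 t) - 1) - -1 = t⁻¹ * (E (Ico 0 t) - 1 + t) := by
      field_simp
      ring
    rw [h10, abs_mul, abs_of_pos (inv_pos.2 ht')]
    calc t⁻¹ * |E (Ico 0 t) - 1 + t| ≤ t⁻¹ * (t ^ 2 * Real.exp t) :=
          mul_le_mul_of_nonneg_left h9 (by positivity)
      _ = t * Real.exp t := by
          field_simp
  exact tendsto_nhds_unique h1 h2

end Pool.Agent.N592.VP
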